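import Pool.Agent.Q266.LA.Mult

set_option autoImplicit false

/-!
Linear arboricity of graphs with a many-to-one homomorphism to a graph of large girth.
-/

namespace Pool.Agent.Q266.LA

open Finset SimpleGraph H931R3.LA Pool.Agent.W111.LAR

/-- Pulling back a cover with multiplicities. -/
theorem cov_pull {V W : Type} [Finite V] [Finite W] (G : SimpleGraph V) (f : V → W) (k : ℕ)
    (μ : W → W → ℕ) (hμ : MCov μ k)
    (h : ∀ u j, {v | G.Adj u v ∧ f v = j}.ncard ≤ μ (f u) j) : Cov G k := by
  obtain ⟨F, hF, hF'⟩ := hμ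
  exact Pool.Agent.TH525.FRG.cov_quot G k F hF f fun u j => (h u j).trans (hF' _ _)

/-- `f` is a homomorphism and every vertex has at most `s` neighbours in each fibre. -/
theorem pull_of_hom {V W : Type} [Finite V] {G : SimpleGraph V} {X : SimpleGraph W} {f : V → W}
    {s : ℕ} (hf : ∀ u v, G.Adj u v → X.Adj (f u) (f v))
    (hs : ∀ u j, {v | G.Adj u v ∧ f v = j}.ncard ≤ s) {μ : W → W → ℕ}
    (hμ : ∀ u j, X.Adj u j → s ≤ μ u j) (u : V) (j : W) :
    {v | G.Adj u v ∧ f v = j}.ncard ≤ μ (f u) j := by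
  by_cases h : X.Adj (f u) j
  · exact (hs u j).trans (hμ _ _ h)
  · have : {v | G.Adj u v ∧ f v = j} = ∅ := by
      ext v
      simp only [Set.mem_ofPred_eq, Set.mem_empty_iff_false, iff_false, not_and]
      rintro h1 rfl
      exact h (hf _ _ h1)
    rw [this]
    simp

theorem size_of_cycles {W : Type} [Finite W] {X H : SimpleGraph W} (hle : H ≤ X) (n : ℕ)
    (hcyc : ∀ (v : W) (c : X.Walk v v), c.IsCycle → n ≤ c.length) (v : W) (h : Cyc H v) :
    n ≤ csize H v := by
  obtain ⟨w, c, hc, hlen⟩ := exists_cycle h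
  have h2 := hcyc w (c.mapLe hle) (hc.mapLe hle)
  rw [Walk.length_mapLe] at h2
  omega

open Classical in
/-- Counting over periods. -/
theorem mult_period {W : Type} (H : ℕ → SimpleGraph W) (k c : ℕ) (u j : W)
    (h : c ≤ mult H k u j) (s : ℕ) : s * c ≤ mult (fun i => H (i % k)) (k * s) u j := by
  rcases Nat.eq_zero_or_pos k with hk | hk
  · subst hk
    have : c = 0 := by simpa [mult] using h
    subst this
    simp
  induction s with
  | zero => simp
  | succ s ih =>
    rw [Nat.mul_succ k s, mult_add]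
    have h1 : mult (fun i => (fun i => H (i % k)) (k * s + i)) k u j = mult H k u j := by
      unfold mult
      refine sum_congr rfl fun i hi => ?_
      have h2 : (k * s + i) % k = i := by
        rw [Nat.mul_add_mod, Nat.mod_eq_of_lt (mem_range.1 hi)]
      simp only [h2]
    rw [h1]
    have h3 : (s + 1) * c = s * c + c := by ring
    omega

/-- Base graphs of maximum degree at most `2 k`, multiplicity `s`. -/
theorem cov_even {V W : Type} [Finite V] [Finite W] (G : SimpleGraph V) (X : SimpleGraph W)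
    (f : V → W) (k s m : ℕ) (hm : 1 ≤ m) (hdeg : ∀ w, (X.neighborSet w).ncard ≤ 2 * k)
    (hcyc : ∀ (v : W) (c : X.Walk v v), c.IsCycle → 2 * m ≤ c.length)
    (hf : ∀ u v, G.Adj u v → X.Adj (f u) (f v))
    (hs : ∀ u j, {v | G.Adj u v ∧ f v = j}.ncard ≤ s) :
    Cov G (k * s + (k * s + m - 1) / m) := by
  classical
  obtain ⟨H, hH, hX⟩ := decomp X k hdeg
  let H' : ℕ → SimpleGraph W := fun i => if h : i < k then H ⟨i, h⟩ else ⊥
  have hle : ∀ i, H' i ≤ X := by
    intro i
    by_cases h : i < k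
    · simp only [H', dif_pos h]
      rw [← hX]
      exact le_iSup H _
    · simp only [H', dif_neg h]
      exact bot_le
  have hd : ∀ i v, ((H' i).neighborSet v).ncard ≤ 2 := by
    intro i v
    by_cases h : i < k
    · simp only [H', dif_pos h]
      exact hH _ v
    · simp only [H', dif_neg h]
      simp [SimpleGraph.neighborSet]
  refine cov_pull G f _ _ (groups m hm (k * s) (fun i => H' (i % k)) (fun i v => hd _ v)
    (fun i v h => size_of_cycles (hle _) (2 * m) hcyc v h)) (pull_of_hom hf hs ?_)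
  intro u j huj
  have h1 : 1 ≤ mult H' k u j := by
    rw [← hX, iSup_adj] at huj
    obtain ⟨i, hi⟩ := huj
    unfold mult
    have h2 : (if (H' i).Adj u j then 1 else 0) = 1 := by
      rw [if_pos]
      simp only [H', dif_pos i.2]
      exact hi
    have h3 := single_le_sum (f := fun i => if (H' i).Adj u j then 1 else 0)
      (fun _ _ => Nat.zero_le _) (mem_range.2 i.2)
    exact h2.symm.le.trans h3
  have h2 := mult_period H' k 1 u j h1 s
  simpa using h2

/-- Base graphs with a proper edge colouring with `d` colours, multiplicity `2 t`. -/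
theorem cov_class {V W : Type} [Finite V] [Finite W] (G : SimpleGraph V) (X : SimpleGraph W)
    (f : V → W) (d t m : ℕ) (hd : 2 ≤ d) (hm : 1 ≤ m) (col : W → W → ℕ)
    (hsym : ∀ u v, X.Adj u v → col u v = col v u) (hlt : ∀ u v, X.Adj u v → col u v < d)
    (hprop : ∀ u v w, X.Adj u v → X.Adj u w → col u v = col u w → v = w)
    (hcyc : ∀ (v : W) (c : X.Walk v v), c.IsCycle → 2 * m ≤ c.length)
    (hf : ∀ u v, G.Adj u v → X.Adj (f u) (f v))
    (hs : ∀ u j, {v | G.Adj u v ∧ f v = j}.ncard ≤ 2 * t) :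
    Cov G (d * t + (d * t + m - 1) / m) := by
  classical
  let H' : ℕ → SimpleGraph W := fun i =>
    { Adj := fun u v => X.Adj u v ∧ (col u v = i ∨ col u v = (i + 1) % d)
      symm.symm := fun u v h => ⟨h.1.symm, by rw [← hsym u v h.1]; exact h.2⟩
      loopless.irrefl := fun u h => h.1.ne rfl }
  have hle : ∀ i, H' i ≤ X := fun i u v h => h.1
  have hdg : ∀ i v, ((H' i).neighborSet v).ncard ≤ 2 := by
    intro i v
    have h1 : ∀ c, ({w | X.Adj v w ∧ col v w = c} : Set W).ncard ≤ 1 := by
      intro c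
      rw [Set.ncard_le_one (Set.toFinite _)]
      rintro a ⟨ha, ha'⟩ b ⟨hb, hb'⟩
      exact hprop v a b ha hb (by rw [ha', hb'])
    have h2 : (H' i).neighborSet v ⊆ {w | X.Adj v w ∧ col v w = i} ∪
        {w | X.Adj v w ∧ col v w = (i + 1) % d} := by
      rintro w ⟨hw, h | h⟩
      · exact Or.inl ⟨hw, h⟩
      · exact Or.inr ⟨hw, h⟩
    exact (Set.ncard_le_ncard h2 (Set.toFinite _)).trans ((Set.ncard_union_le _ _).trans
      (add_le_add (h1 _) (h1 _)))
  refine cov_pull G f _ _ (groups m hm (d * t) (fun i => H' (i % d)) (fun i v => hdg _ v)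
    (fun i v h => size_of_cycles (hle _) (2 * m) hcyc v h)) (pull_of_hom hf hs ?_)
  intro u j huj
  have h1 : 2 ≤ mult H' d u j := by
    have hc := hlt u j huj
    let a := col u j
    let b := (col u j + (d - 1)) % d
    have hb : b < d := Nat.mod_lt _ (by omega)
    have hba : (b + 1) % d = a := by
      show ((col u j + (d - 1)) % d + 1) % d = col u j
      rw [Nat.mod_add_mod]
      have : col u j + (d - 1) + 1 = col u j + d := by omega
      rw [this, Nat.add_mod_right, Nat.mod_eq_of_lt hc]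
    have hab : a ≠ b := by
      intro h
      rw [← h] at hba
      rcases Nat.lt_or_ge (a + 1) d with h3 | h3
      · rw [Nat.mod_eq_of_lt h3] at hba
        omega
      · have h4 : a + 1 = d := by
          have : a < d := hc
          omega
        rw [h4, Nat.mod_self] at hba
        omega
    have hA : (H' a).Adj u j := ⟨huj, Or.inl rfl⟩
    have hB : (H' b).Adj u j := ⟨huj, Or.inr hba.symm⟩
    unfold mult
    have h5 : ∑ i ∈ ({a, b} : Finset ℕ), (if (H' i).Adj u j then 1 else 0) = 2 := by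
      rw [sum_pair hab, if_pos hA, if_pos hB]
    have h6 : ({a, b} : Finset ℕ) ⊆ range d := by
      intro i hi
      rcases mem_insert.1 hi with rfl | hi
      · exact mem_range.2 hc
      · rw [mem_singleton.1 hi]
        exact mem_range.2 hb
    have h7 := sum_le_sum_of_subset (f := fun i => if (H' i).Adj u j then 1 else 0) h6
    exact h5.symm.le.trans (h7.trans (le_of_eq (sum_congr rfl fun i _ => by congr)))
  have h2 := mult_period H' d 2 u j h1 t
  rwa [mul_comm t 2] at h2

variable {Γ : Type} [Group Γ]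

/-- Cayley graphs as base graphs. -/
theorem cov_cay {V : Type} [Finite V] [Finite Γ] (G : SimpleGraph V) (f : V → Γ) (S : Finset Γ)
    (s : ℕ) (X : SimpleGraph Γ) (hX : ∀ g h, X.Adj g h ↔ g⁻¹ * h ∈ S) (σ : Γ → Γ)
    (hσ : ∀ x ∈ S, σ x ∈ S ∧ σ (σ x) = x ∧ σ x ≠ x ∧ ClPair x (σ x))
    (hsum : (s : ℝ) * ∑ x ∈ S, (1 : ℝ) / Nat.card (Subgroup.closure {x, σ x} : Subgroup Γ) ≤ 1)
    (hf : ∀ u v, G.Adj u v → X.Adj (f u) (f v))
    (hs : ∀ u j, {v | G.Adj u v ∧ f v = j}.ncard ≤ s) :
    Cov G (S.card * s / 2 + 1) := by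
  classical
  obtain ⟨T, hTS, hT, hcard, hfold⟩ := halve2 S σ (fun s hs => (hσ s hs).1)
    (fun s hs => (hσ s hs).2.1) (fun s hs => (hσ s hs).2.2.1)
  have hXT : ∀ g h, X.Adj g h → ∃ x : T, (pgr x.1 (σ x.1)).Adj g h := by
    intro g h hh
    have h1 : g⁻¹ * h ∈ S := (hX g h).1 hh
    rcases hT _ h1 with h2 | h2
    · exact ⟨⟨_, h2⟩, hh.ne, Or.inl (by simp)⟩
    · exact ⟨⟨_, h2⟩, hh.ne, Or.inr (Or.inl (by simp [(hσ _ h1).2.1]))⟩
  obtain ⟨F, hF, hF'⟩ := load_mult (fun p : T × Fin s => pgr p.1.1 (σ p.1.1))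
    (fun p g => pgr_deg (hσ p.1.1 (hTS p.1.2)).2.2.2 g) (by
      intro g
      refine le_trans ?_ hsum
      rw [Fintype.sum_prod_type]
      simp only [sum_const, card_univ, Fintype.card_fin, nsmul_eq_mul]
      rw [← mul_sum]
      refine mul_le_mul_of_nonneg_left ?_ (Nat.cast_nonneg s)
      rw [hfold (fun x => 1 / Nat.card (Subgroup.closure {x, σ x} : Subgroup Γ)) (fun x hx => by
        rw [(hσ x hx).2.1, Set.pair_comm]), mul_sum, ← sum_coe_sort T]
      refine sum_le_sum fun x _ => ?_
      have hpos : (0 : ℝ) < Nat.card (Subgroup.closure {x.1, σ x.1} : Subgroup Γ) := by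
        exact_mod_cast Nat.card_pos
      split_ifs with h
      · have h2 : (Nat.card (Subgroup.closure {x.1, σ x.1} : Subgroup Γ) : ℝ) ≤
            csize (pgr x.1 (σ x.1)) g := by
          exact_mod_cast pgr_size g
        rw [mul_one_div]
        exact div_le_div_of_nonneg_left (by norm_num) hpos h2
      · positivity)
  have hM := mcov_of_type F hF hF'
  have hc : Nat.card (Option (T × Fin s)) = S.card * s / 2 + 1 := by
    rw [Nat.card_eq_fintype_card, Fintype.card_option, Fintype.card_prod, Fintype.card_coe,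
      Fintype.card_fin]
    have h2 : S.card * s = 2 * (T.card * s) := by rw [hcard]; ring
    omega
  rw [hc] at hM
  refine cov_pull G f _ _ hM (pull_of_hom (μ := fun u j =>
    {i : T × Fin s | (pgr i.1.1 (σ i.1.1)).Adj u j}.ncard) hf hs ?_)
  intro u j huj
  obtain ⟨x, hx⟩ := hXT u j huj
  have h1 : ((fun i : Fin s => ((x, i) : T × Fin s)) '' Set.univ).ncard = s := by
    rw [Set.ncard_image_of_injective _ (fun i j h => (Prod.mk.inj h).2)]
    simp
  calc s = ((fun i : Fin s => ((x, i) : T × Fin s)) '' Set.univ).ncard := h1.symm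
    _ ≤ _ := Set.ncard_le_ncard (by
        rintro _ ⟨i, _, rfl⟩
        exact hx) (Set.toFinite _)

end Pool.Agent.Q266.LA
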