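import Pool.Agent.W111.LAR.Cay2
import Pool.Agent.TH525.FRG.Quot

set_option autoImplicit false

/-!
Linear arboricity: covers with multiplicities.
-/

namespace Pool.Agent.Q266.LA

open Finset SimpleGraph H931R3.LA Pool.Agent.W111.LAR

section sel

variable {V E ι : Type} [Fintype V] [DecidableEq V] [Fintype E] [DecidableEq E]
  [Fintype ι] [DecidableEq ι]

/-- From a fractional selection with load at most one at every vertex one gets a selection which
is a linear forest. -/
theorem selection2 (a b : E → V) (hab : ∀ e, a e ≠ b e) (κ : E → ι) (x : E → ℝ)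
    (h0 : ∀ e, 0 ≤ x e) (hc : ∀ i, ∑ e ∈ univ.filter (fun e => κ e = i), x e = 1)
    (hv : ∀ v, ∑ e ∈ star a b univ v, x e ≤ 1) :
    ∃ s : ι → E, (∀ i, κ (s i) = i) ∧ H931R3.LA.IsLF (selGraph a b s) ∧
      ∀ i i', s(a (s i), b (s i)) = s(a (s i'), b (s i')) → i = i' := by
  classical
  obtain ⟨M, hM1, hM2, hM3⟩ := exists_selection a b hab κ _ univ ∅ rfl (by simp) ⟨x, h0, by simp,
    hc, fun v _ => hv v, by
      intro U hU hcl
      obtain ⟨v, hv⟩ := hU
      exact absurd (hcl.1 hv) (by simp)⟩
  have hs : ∀ i, ∃ e, M.filter (fun e => κ e = i) = {e} := fun i => card_eq_one.1 (hM1 i)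
  choose s hs using hs
  have sM : ∀ i, s i ∈ M ∧ κ (s i) = i := by
    intro i
    have : s i ∈ M.filter (fun e => κ e = i) := by rw [hs i]; simp
    exact mem_filter.1 this
  refine ⟨s, fun i => (sM i).2, ⟨?_, ?_⟩, ?_⟩
  · -- acyclic
    intro v c hcyc
    obtain ⟨w, hw, hcard⟩ := hM3 c.support.toFinset ⟨v, by simp⟩
    have hwc : w ∈ c.support := by simpa using hw
    have h2 := hcyc.ncard_neighborSet_toSubgraph_eq_two hwc
    have hsub : c.toSubgraph.neighborSet w ⊆
        ((((star a b M w).filter (fun e => a e ∈ c.support.toFinset ∧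
          b e ∈ c.support.toFinset)).image (fun e => if a e = w then b e else a e) :
          Finset V) : Set V) := by
      intro w' hw'
      have hadj : c.toSubgraph.Adj w w' := hw'
      have hw's : w' ∈ c.support := by
        have := hadj.snd_mem
        rwa [SimpleGraph.Walk.mem_verts_toSubgraph] at this
      obtain ⟨hne, i, hi⟩ := hadj.adj_sub
      rw [Finset.mem_coe, mem_image]
      refine ⟨s i, ?_, ?_⟩
      · rw [mem_filter]
        refine ⟨mem_filter.2 ⟨(sM i).1, ?_⟩, ?_, ?_⟩
        · rcases hi with ⟨h1, h2⟩ | ⟨h1, h2⟩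
          · exact Or.inl h1
          · exact Or.inr h2
        · rcases hi with ⟨h1, h2⟩ | ⟨h1, h2⟩
          · rw [h1]; simpa using hwc
          · rw [h1]; simpa using hw's
        · rcases hi with ⟨h1, h2⟩ | ⟨h1, h2⟩
          · rw [h2]; simpa using hw's
          · rw [h2]; simpa using hwc
      · rcases hi with ⟨h1, h2⟩ | ⟨h1, h2⟩
        · rw [if_pos h1, h2]
        · have : a (s i) ≠ w := by rw [h1]; exact hne.symm
          rw [if_neg this, h1]
    have h3 := Set.ncard_le_ncard hsub (Finset.finite_toSet _)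
    rw [Set.ncard_coe_finset, h2] at h3
    have h4 := card_image_le (s := (star a b M w).filter (fun e => a e ∈ c.support.toFinset ∧
          b e ∈ c.support.toFinset)) (f := fun e => if a e = w then b e else a e)
    omega
  · intro w
    have hsub : (selGraph a b s).neighborSet w ⊆
        (((star a b M w).image (fun e => if a e = w then b e else a e) : Finset V) : Set V) := by
      intro w' hw'
      obtain ⟨hne, i, hi⟩ := hw'
      rw [Finset.mem_coe, mem_image]
      refine ⟨s i, ?_, ?_⟩
      · refine mem_filter.2 ⟨(sM i).1, ?_⟩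
        rcases hi with ⟨h1, h2⟩ | ⟨h1, h2⟩
        · exact Or.inl h1
        · exact Or.inr h2
      · rcases hi with ⟨h1, h2⟩ | ⟨h1, h2⟩
        · rw [if_pos h1, h2]
        · have : a (s i) ≠ w := by rw [h1]; exact hne.symm
          rw [if_neg this, h1]
    have h3 := Set.ncard_le_ncard hsub (Finset.finite_toSet _)
    rw [Set.ncard_coe_finset] at h3
    exact h3.trans (card_image_le.trans (hM2 w))
  · intro i i' hii
    by_contra hne
    have hsne : s i ≠ s i' := by
      intro h
      exact hne (by rw [← (sM i).2, ← (sM i').2, h])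
    obtain ⟨w, hw, hcard⟩ := hM3 {a (s i), b (s i)} ⟨a (s i), by simp⟩
    have hw' : a (s i) = w ∨ b (s i) = w := by
      rcases mem_insert.1 hw with h | h
      · exact Or.inl h.symm
      · exact Or.inr (mem_singleton.1 h).symm
    have h1 : s i ∈ (star a b M w).filter (fun e => a e ∈ ({a (s i), b (s i)} : Finset V) ∧
        b e ∈ ({a (s i), b (s i)} : Finset V)) := by
      refine mem_filter.2 ⟨mem_filter.2 ⟨(sM i).1, hw'⟩, by simp, by simp⟩
    have h2 : s i' ∈ (star a b M w).filter (fun e => a e ∈ ({a (s i), b (s i)} : Finset V) ∧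
        b e ∈ ({a (s i), b (s i)} : Finset V)) := by
      rcases Sym2.eq_iff.1 hii with ⟨h3, h4⟩ | ⟨h3, h4⟩
      · refine mem_filter.2 ⟨mem_filter.2 ⟨(sM i').1, ?_⟩, by simp [← h3], by simp [← h4]⟩
        rw [← h3, ← h4]; exact hw'
      · refine mem_filter.2 ⟨mem_filter.2 ⟨(sM i').1, ?_⟩, by simp [← h4], by simp [← h3]⟩
        rw [← h3, ← h4]; exact hw'.symm
    have h5 := card_le_one.1 hcard _ h1 _ h2
    exact hsne h5

end sel

open Classical in
/-- The criterion with multiplicities. -/
theorem load_mult {V κ : Type} [Finite V] [Fintype κ] (H : κ → SimpleGraph V)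
    (hdeg : ∀ i v, ((H i).neighborSet v).ncard ≤ 2)
    (hload : ∀ v, ∑ i, (if Cyc (H i) v then (2 : ℝ) / csize (H i) v else 0) ≤ 1) :
    ∃ F : Option κ → SimpleGraph V, (∀ t, IsLF (F t)) ∧
      ∀ u v, {i | (H i).Adj u v}.ncard ≤ {t | (F t).Adj u v}.ncard := by
  have := Fintype.ofFinite V
  have : Fintype (EE H) := Fintype.ofFinite (EE H)
  have : Fintype (II H) := Fintype.ofFinite (II H)
  let x : EE H → ℝ := fun e => 1 / csize (H e.1.1) (aa e)
  have hclass : ∀ c : II H, ∑ e ∈ univ.filter (fun e => cl e = c), x e = 1 := by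
    intro c
    have hx : ∀ e ∈ univ.filter (fun e : EE H => cl e = c), x e = 1 / csize (H c.1.1) c.1.2 := by
      intro e he
      obtain ⟨h1, h2⟩ := (cl_iff e c).1 (mem_filter.1 he).2
      show (1 : ℝ) / csize (H e.1.1) (aa e) = _
      rw [h1, csize_eq h2]
    rw [sum_congr rfl hx, sum_const, nsmul_eq_mul, class_card]
    have hpos : (0 : ℝ) < csize (H c.1.1) c.1.2 := by exact_mod_cast csize_pos _ _
    field_simp
  have hvert : ∀ v, ∑ e ∈ star aa bb univ v, x e ≤ 1 := by
    intro v
    refine le_trans (le_of_eq ?_) (hload v)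
    rw [← sum_fiberwise (star aa bb univ v) (fun e : EE H => e.1.1) x]
    refine sum_congr rfl fun i _ => ?_
    by_cases hcyc : Cyc (H i) v
    · rw [if_pos hcyc]
      have hx : ∀ e ∈ (star aa bb (univ : Finset (EE H)) v).filter (fun e => e.1.1 = i), x e =
          1 / csize (H i) v := by
        intro e he
        obtain ⟨he1, he2⟩ := mem_filter.1 he
        obtain ⟨_, hinc⟩ := mem_filter.1 he1
        show (1 : ℝ) / csize (H e.1.1) (aa e) = _
        rw [← csize_eq (ends_reach e v hinc), he2]
      rw [sum_congr rfl hx, sum_const, cnt i v hcyc, nsmul_eq_mul]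
      push_cast
      ring
    · rw [if_neg hcyc, cnt0 i v hcyc, sum_empty]
  have hx0 : ∀ e, 0 ≤ x e := fun e => by
    show (0 : ℝ) ≤ 1 / csize (H e.1.1) (aa e)
    positivity
  obtain ⟨s, hs, hLF, hinj⟩ := selection2 aa bb ends_ne cl x hx0 hclass hvert
  have hsi : ∀ c : II H, (s c).1.1 = c.1.1 := fun c => ((cl_iff (s c) c).1 (hs c)).1
  let F : Option κ → SimpleGraph V := fun t => match t with
    | none => selGraph aa bb s
    | some i => (H i).deleteEdges {d | ∃ c : II H, c.1.1 = i ∧ d = (s c).1.2}
  refine ⟨F, ?_, ?_⟩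
  · intro t
    cases t with
    | none => exact hLF
    | some i =>
      have hle : F (some i) ≤ H i := deleteEdges_le _
      refine ⟨?_, fun v => le_trans (Set.ncard_le_ncard (fun u hu => hle hu) (Set.toFinite _))
        (hdeg i v)⟩
      intro v c hc
      have hcl' := closed_cycle hle (hdeg i) hc
      have hcyc : Cyc (H i) v := fun w hw => (hcl' w hw).2.1
      let c0 : II H := ⟨(i, rep (H i) v), hcyc.trans (rep_reach _ _).symm, rep_eq (rep_reach _ _)⟩
      have h1 := (cl_iff (s c0) c0).1 (hs c0)
      have h2 : (H i).Reachable v (aa (s c0)) := (rep_reach (H i) v).symm.trans h1.2.symm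
      have h3 : (H i).Adj (aa (s c0)) (bb (s c0)) := by
        have := adj_ends (s c0)
        rw [hsi c0] at this
        exact this
      have h4 := (hcl' _ h2).2.2 _ h3
      have h5 : (F (some i)).Adj (aa (s c0)) (bb (s c0)) ↔ (H i).Adj (aa (s c0)) (bb (s c0)) ∧
          s(aa (s c0), bb (s c0)) ∉ {d | ∃ c : II H, c.1.1 = i ∧ d = (s c).1.2} := deleteEdges_adj
      exact (h5.1 h4).2 ⟨c0, rfl, mk_ends _⟩
  · intro u v
    let g : κ → Option κ := fun i =>
      if s(u, v) ∈ {d | ∃ c : II H, c.1.1 = i ∧ d = (s c).1.2} then none else some i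
    refine Set.ncard_le_ncard_of_injOn g ?_ ?_ (Set.toFinite _)
    · intro i hi
      show (F (g i)).Adj u v
      by_cases hd : s(u, v) ∈ {d | ∃ c : II H, c.1.1 = i ∧ d = (s c).1.2}
      · have hg : g i = none := if_pos hd
        rw [hg]
        obtain ⟨c, _, hc2⟩ := hd
        rw [← mk_ends] at hc2
        have hsel : (selGraph aa bb s).Adj (aa (s c)) (bb (s c)) :=
          ⟨ends_ne _, c, Or.inl ⟨rfl, rfl⟩⟩
        rcases Sym2.eq_iff.1 hc2 with ⟨h1, h2⟩ | ⟨h1, h2⟩
        · rw [h1, h2]; exact hsel
        · rw [h1, h2]; exact hsel.symm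
      · have hg : g i = some i := if_neg hd
        rw [hg]
        exact deleteEdges_adj.2 ⟨hi, hd⟩
    · intro i _ i' _ hii
      by_cases hd : s(u, v) ∈ {d | ∃ c : II H, c.1.1 = i ∧ d = (s c).1.2}
      · by_cases hd' : s(u, v) ∈ {d | ∃ c : II H, c.1.1 = i' ∧ d = (s c).1.2}
        · obtain ⟨c, hc1, hc2⟩ := hd
          obtain ⟨c', hc1', hc2'⟩ := hd'
          have h1 : s(aa (s c), bb (s c)) = s(aa (s c'), bb (s c')) := by
            rw [mk_ends, mk_ends, ← hc2, ← hc2']
          have h2 := hinj c c' h1
          rw [← hc1, ← hc1', h2]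
        · have h1 : g i = none := if_pos hd
          have h2 : g i' = some i' := if_neg hd'
          rw [h1, h2] at hii
          exact absurd hii (by simp)
      · by_cases hd' : s(u, v) ∈ {d | ∃ c : II H, c.1.1 = i' ∧ d = (s c).1.2}
        · have h1 : g i = some i := if_neg hd
          have h2 : g i' = none := if_pos hd'
          rw [h1, h2] at hii
          exact absurd hii (by simp)
        · have h1 : g i = some i := if_neg hd
          have h2 : g i' = some i' := if_neg hd'
          rw [h1, h2] at hii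
          exact Option.some.inj hii

/-- Covers by linear forests with multiplicities. -/
def MCov {W : Type} (μ : W → W → ℕ) (k : ℕ) : Prop :=
  ∃ F : Fin k → SimpleGraph W, (∀ c, IsLF (F c)) ∧ ∀ u j, μ u j ≤ {c | (F c).Adj u j}.ncard

theorem mcov_of_type {W τ : Type} [Finite τ] {μ : W → W → ℕ} (F : τ → SimpleGraph W)
    (hF : ∀ t, IsLF (F t)) (h : ∀ u j, μ u j ≤ {t | (F t).Adj u j}.ncard) :
    MCov μ (Nat.card τ) := by
  let e := Finite.equivFin τ
  refine ⟨fun i => F (e.symm i), fun i => hF _, fun u j => (h u j).trans ?_⟩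
  refine Set.ncard_le_ncard_of_injOn e ?_ (e.injective.injOn) (Set.toFinite _)
  intro t ht
  show (F (e.symm (e t))).Adj u j
  rw [e.symm_apply_apply]
  exact ht

theorem MCov.add {W : Type} {μ ν : W → W → ℕ} {k l : ℕ} (h1 : MCov μ k) (h2 : MCov ν l) :
    MCov (fun u j => μ u j + ν u j) (k + l) := by
  obtain ⟨F, hF, hF'⟩ := h1
  obtain ⟨K, hK, hK'⟩ := h2
  have hcard : Nat.card (Fin k ⊕ Fin l) = k + l := by simp
  rw [← hcard]
  refine mcov_of_type (Sum.elim F K) ?_ ?_
  · rintro (i | i)
    · exact hF i
    · exact hK i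
  · intro u j
    have h3 : {t | (Sum.elim F K t).Adj u j} =
        Sum.inl '' {c | (F c).Adj u j} ∪ Sum.inr '' {c | (K c).Adj u j} := by
      ext t
      rcases t with t | t
      · simp
      · simp
    rw [h3, Set.ncard_union_eq, Set.ncard_image_of_injective _ Sum.inl_injective,
      Set.ncard_image_of_injective _ Sum.inr_injective]
    · exact add_le_add (hF' u j) (hK' u j)
    · rw [Set.disjoint_left]
      rintro _ ⟨a, _, rfl⟩ ⟨b, _, hb⟩
      exact absurd hb (by simp)

theorem MCov.mono {W : Type} {μ ν : W → W → ℕ} {k : ℕ} (h1 : MCov μ k)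
    (h : ∀ u j, ν u j ≤ μ u j) : MCov ν k := by
  obtain ⟨F, hF, hF'⟩ := h1
  exact ⟨F, hF, fun u j => (h u j).trans (hF' u j)⟩

theorem MCov.le {W : Type} {μ : W → W → ℕ} {k l : ℕ} (h1 : MCov μ k) (h : k ≤ l) : MCov μ l := by
  obtain ⟨d, rfl⟩ := Nat.exists_eq_add_of_le h
  have h2 : MCov (fun _ _ : W => 0) d :=
    ⟨fun _ => ⊥, fun _ => ⟨fun v c hc => by
      have := hc.three_le_length
      cases c with
      | nil => simp at this
      | cons h _ => exact h.elim, fun v => by simp [SimpleGraph.neighborSet]⟩, fun _ _ => by simp⟩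
  exact (h1.add h2).mono fun u j => by simp

open Classical in
/-- The multiplicity of a pair in the first `n` graphs. -/
noncomputable def mult {W : Type} (H : ℕ → SimpleGraph W) (n : ℕ) (u j : W) : ℕ :=
  ∑ i ∈ range n, if (H i).Adj u j then 1 else 0

open Classical in
theorem mult_add {W : Type} (H : ℕ → SimpleGraph W) (m n : ℕ) (u j : W) :
    mult H (m + n) u j = mult H m u j + mult (fun i => H (m + i)) n u j := by
  unfold mult
  rw [Finset.sum_range_add]

open Classical in
theorem mult_eq {W : Type} (H : ℕ → SimpleGraph W) (n : ℕ) (u j : W) :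
    mult H n u j = {i : Fin n | (H i).Adj u j}.ncard := by
  unfold mult
  rw [Set.ncard_eq_toFinset_card', Finset.sum_range]
  simp [Finset.sum_boole]

/-- A family of `n ≤ m` graphs of maximum degree two whose cyclic components have at least `2 m`
vertices. -/
theorem group {W : Type} [Finite W] (H : ℕ → SimpleGraph W) (m : ℕ)
    (hdeg : ∀ i v, ((H i).neighborSet v).ncard ≤ 2)
    (hsz : ∀ i v, Cyc (H i) v → 2 * m ≤ csize (H i) v) (n : ℕ) (hn : n ≤ m) :
    MCov (mult H n) (n + 1) := by
  classical
  have hcard : Nat.card (Option (Fin n)) = n + 1 := by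
    rw [Nat.card_eq_fintype_card, Fintype.card_option, Fintype.card_fin]
  obtain ⟨F, hF, hF'⟩ := load_mult (fun i : Fin n => H i) (fun i v => hdeg i v) (by
    intro v
    rcases Nat.eq_zero_or_pos m with hm0 | hm0
    · have : IsEmpty (Fin n) := ⟨fun i => by have := i.2; omega⟩
      simp
    · have h1 : ∀ i ∈ (univ : Finset (Fin n)),
          (if Cyc (H i) v then (2 : ℝ) / csize (H i) v else 0) ≤ 1 / m := by
        intro i _
        have hm1 : (0 : ℝ) < m := by exact_mod_cast hm0
        split_ifs with h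
        · have h2 : (2 * m : ℝ) ≤ csize (H i) v := by exact_mod_cast hsz i v h
          rw [div_le_div_iff₀ (by linarith) hm1]
          linarith
        · positivity
      refine le_trans (sum_le_sum h1) ?_
      rw [sum_const, nsmul_eq_mul, card_univ, Fintype.card_fin]
      have hm1 : (0 : ℝ) < m := by exact_mod_cast hm0
      have hm2 : (n : ℝ) ≤ m := by exact_mod_cast hn
      rw [mul_one_div, div_le_one hm1]
      exact hm2)
  rw [← hcard]
  exact mcov_of_type F hF fun u j => by rw [mult_eq]; exact hF' u j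

/-- Any number of graphs, in groups of at most `m`. -/
theorem groups {W : Type} [Finite W] (m : ℕ) (hm : 1 ≤ m) :
    ∀ (n : ℕ) (H : ℕ → SimpleGraph W), (∀ i v, ((H i).neighborSet v).ncard ≤ 2) →
    (∀ i v, Cyc (H i) v → 2 * m ≤ csize (H i) v) →
    MCov (mult H n) (n + (n + m - 1) / m) := by
  intro n
  induction n using Nat.strong_induction_on with
  | _ n ih =>
    intro H hdeg hsz
    rcases Nat.eq_zero_or_pos n with hn0 | hn0
    · subst hn0
      exact (group H m hdeg hsz 0 (by omega)).mono (fun _ _ => le_rfl) |> fun h => by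
        obtain ⟨F, hF, _⟩ := h
        have h0 : (0 + (0 + m - 1) / m) = 0 := by
          rw [Nat.zero_add, Nat.zero_add]
          exact Nat.div_eq_of_lt (by omega)
        rw [h0]
        exact ⟨fun i => i.elim0, fun i => i.elim0, fun u j => by simp [mult]⟩
    · by_cases hnm : n ≤ m
      · refine (group H m hdeg hsz n hnm).le ?_
        have : 1 ≤ (n + m - 1) / m := by
          rw [Nat.one_le_div_iff (by omega)]
          omega
        omega
      · push Not at hnm
        obtain ⟨d, rfl⟩ := Nat.exists_eq_add_of_le hnm.le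
        have h1 := group H m hdeg hsz m le_rfl
        have h2 := ih d (by omega) (fun i => H (m + i)) (fun i v => hdeg _ v)
          (fun i v h => hsz _ v h)
        have h3 := (h1.add h2).mono (ν := mult H (m + d)) fun u j => (mult_add H m d u j).le
        refine h3.le ?_
        have h5 : (m + d + m - 1) / m = (d + m - 1) / m + 1 := by
          have : m + d + m - 1 = (d + m - 1) + m := by omega
          rw [this, Nat.add_div_right _ (by omega)]
        omega

end Pool.Agent.Q266.LA
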